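import Pool.Agent.H309.DF.Stm

/-!
# Continuity in a parameter of the sine coefficients (project DF of helper309, by helper399)
-/

set_option autoImplicit false

open Set Filter Topology MeasureTheory

namespace Pool.Agent.H399.DF

open Pool.Agent.H309.DF

theorem sn_cont (a : ℝ) (m : ℕ) : Continuous (sn a m) := by
  unfold sn
  exact Real.continuous_sin.comp (continuous_const.mul (continuous_id.add continuous_const))

theorem tCoCont : Pool.Agent.H309.DF.CoCont := by
  intro a τ S ha hτ hS f hf hb m
  have hle : -a ≤ a := by linarith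
  -- the extension
  obtain ⟨F, hF, hFe⟩ : ∃ F : ℝ → ℝ → ℝ, Continuous (Function.uncurry F) ∧
      ∀ t ∈ Icc 0 τ, ∀ y ∈ Icc (-a) a, F t y = f t y := by
    refine ⟨fun t y => f (projIcc 0 τ hτ.le t) (projIcc (-a) a hle y), ?_, ?_⟩
    · have h1 : Continuous (fun z : ℝ × ℝ =>
          (((projIcc 0 τ hτ.le z.1 : ℝ), (projIcc (-a) a hle z.2 : ℝ)) : ℝ × ℝ)) :=
        (continuous_subtype_val.comp (continuous_projIcc.comp continuous_fst)).prodMk
          (continuous_subtype_val.comp (continuous_projIcc.comp continuous_snd))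
      exact hf.comp_continuous h1 fun z =>
        ⟨(projIcc 0 τ hτ.le z.1).2, (projIcc (-a) a hle z.2).2⟩
    · intro t ht y hy
      show f (projIcc 0 τ hτ.le t) (projIcc (-a) a hle y) = f t y
      rw [projIcc_of_mem hτ.le ht, projIcc_of_mem hle hy]
  have hG : Continuous (fun t => (1 / a) * ∫ y in (-a)..a, F t y * sn a m y) := by
    refine continuous_const.mul ?_
    refine intervalIntegral.continuous_parametric_intervalIntegral_of_continuous' ?_ _ _
    exact hF.mul ((sn_cont a m).comp continuous_snd)
  refine ⟨hG.continuousOn.congr fun t ht => ?_, fun t ht => ?_⟩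
  · show (1 / a) * _ = (1 / a) * _
    congr 1
    refine intervalIntegral.integral_congr fun y hy => ?_
    rw [uIcc_of_le hle] at hy
    show f t y * sn a m y = F t y * sn a m y
    rw [hFe t ht y hy]
  · have h1 : ‖∫ y in (-a)..a, f t y * sn a m y‖ ≤ S * |a - -a| := by
      refine intervalIntegral.norm_integral_le_of_norm_le_const fun y hy => ?_
      rw [uIoc_of_le hle] at hy
      have h2 := hb t ht y ⟨hy.1.le, hy.2⟩
      have h3 : |sn a m y| ≤ 1 := Real.abs_sin_le_one _
      rw [Real.norm_eq_abs, abs_mul]
      calc |f t y| * |sn a m y| ≤ S * 1 := mul_le_mul h2 h3 (abs_nonneg _) hS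
        _ = S := mul_one S
    unfold co
    rw [Real.norm_eq_abs] at h1
    rw [abs_mul, abs_of_pos (by positivity : 0 < 1 / a)]
    have h4 : |a - -a| = 2 * a := by
      rw [abs_of_pos (by linarith)]
      ring
    rw [h4] at h1
    calc 1 / a * |∫ y in (-a)..a, f t y * sn a m y| ≤ 1 / a * (S * (2 * a)) :=
          mul_le_mul_of_nonneg_left h1 (by positivity)
      _ = 2 * S := by
          field_simp

end Pool.Agent.H399.DF
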